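import Pool.Agent.X86.AF.Inst

/-!
# MP_98e33a_an : the level set of `1/2` for the Lüroth map has Hausdorff dimension one

The Lüroth map is `L 0 = 0` and `L x = n (n + 1) x - n` for `x ∈ [1/(n+1), 1/n)`, `n ≥ 1`, with an
arbitrary value in `[0, 1]` at the point `1`; the asymptotic set of `x ∈ [0, 1]` is
`AS x = {y ∈ [0, 1] : |L^n x - L^n y| → 0}` and `Θ(α) = {x ∈ [0, 1] : dim_H AS x = α}`.  We prove
`dim_H Θ(1/2) = 1`.
-/

open Set Filter Topology
open scoped ENNReal

namespace Pool.Agent.Results.MP_98e33a_an.FullDimension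

/-- The defining properties of the Lüroth map on `[0, 1]`; the value at the point `1` is
arbitrary. -/
def IsLuroth (L : ℝ → ℝ) : Prop :=
  L 0 = 0 ∧ L 1 ∈ Icc (0:ℝ) 1 ∧
    ∀ n : ℕ, 1 ≤ n → ∀ x ∈ Ico (1 / ((n:ℝ) + 1)) (1 / n), L x = n * (n + 1) * x - n

/-- The asymptotic set of `x` in `[0, 1]` under the map `L`. -/
def AS (L : ℝ → ℝ) (x : ℝ) : Set ℝ :=
  {y | y ∈ Icc (0:ℝ) 1 ∧ Tendsto (fun n : ℕ => |L^[n] x - L^[n] y|) atTop (𝓝 0)}

/-- The level sets `Θ(L; α)`. -/
def Theta (L : ℝ → ℝ) (α : ℝ≥0∞) : Set ℝ := {x | x ∈ Icc (0:ℝ) 1 ∧ dimH (AS L x) = α}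

/-- **The set of points whose asymptotic set has Hausdorff dimension `1/2` has Hausdorff
dimension one.** -/
theorem _root_.Pool.Agent.Results.MP_98e33a_an.FullDimension.result :
    (∃ L, IsLuroth L ∧ L 1 = 0) ∧ ∀ L : ℝ → ℝ, IsLuroth L → dimH (Theta L (1 / 2)) = 1 := by
  constructor
  · refine ⟨fun x => if x = 1 then 0 else (⌈1 / x⌉ - 1) * ((⌈1 / x⌉ - 1) + 1) * x - (⌈1 / x⌉ - 1) +
      (if x = 0 then -1 else 0), ⟨by simp, by simp, ?_⟩, by simp⟩
    intro n hn x hx
    have hnr : (1:ℝ) ≤ n := by exact_mod_cast hn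
    have hx0 : 0 < x := lt_of_lt_of_le (by positivity) hx.1
    have h2 : x ≠ 1 := by
      have : (1:ℝ) / n ≤ 1 := by rw [div_le_one (by linarith)]; exact hnr
      exact (lt_of_lt_of_le hx.2 this).ne
    have h1 : ⌈1 / x⌉ = (n:ℤ) + 1 := by
      rw [Int.ceil_eq_iff]
      obtain ⟨a1, a2⟩ := hx
      rw [div_le_iff₀ (by linarith)] at a1
      rw [lt_div_iff₀ (by linarith)] at a2
      push_cast
      constructor
      · rw [lt_div_iff₀ hx0]; linarith
      · rw [div_le_iff₀ hx0]; linarith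
    simp only [h1, if_neg h2, if_neg hx0.ne']
    push_cast
    ring
  · intro L hL
    have h := Pool.Agent.X86.AF.luroth_isMap hL.1 hL.2.2
    apply le_antisymm
    · refine (dimH_mono (subset_univ _)).trans ?_
      rw [Real.dimH_univ]
    · refine (Pool.Agent.X86.AF.theta_eq_one h).symm.le.trans ?_
      apply dimH_mono
      rintro x ⟨hx, hd⟩
      refine ⟨Ico_subset_Icc_self hx, ?_⟩
      have h2 : ENNReal.ofReal (1 / 2) = 1 / 2 := by
        rw [ENNReal.ofReal_div_of_pos (by norm_num)]; norm_num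
      rw [← h2, ← hd]
      apply le_antisymm
      · have hsub : AS L x ⊆ {1} ∪ Pool.Agent.X86.AF.AS L (Ico 0 1) x := by
          rintro y ⟨hy, hy'⟩
          rcases eq_or_lt_of_le hy.2 with h3 | h3
          · left; exact h3
          · right; exact ⟨⟨hy.1, h3⟩, hy'⟩
        refine (dimH_mono hsub).trans ?_
        rw [Pool.Agent.X86.AF.dimH_countable_union (countable_singleton _)]
      · apply dimH_mono
        rintro y ⟨hy, hy'⟩
        exact ⟨Ico_subset_Icc_self hy, hy'⟩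

end Pool.Agent.Results.MP_98e33a_an.FullDimension
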